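import Mathlib
import Pool.Agent.N781.E.Fin

/-!
# The joint law of the values of `Ω` at FIXED shifts is invariant under the diagonal shift, at all but
few scales

In particular the joint law of `Ω(n), Ω(n + 1), …, Ω(n + k - 1)`, `n ≤ y`, tested on products of
arbitrary bounded functions, is almost invariant under adding `(1, …, 1)`, for all `y` in all but few
of the intervals `[N / 2 ^ (i + 1), N / 2 ^ i]`.
-/

open Finset

namespace Pool.Agent.Results.MP_e0aac0_nt.DiagonalShiftFixedShifts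

/-- The sum over `n ≤ y` of `∏ j, f j φ j (h j) - ∏ j, f j φ j (h j + 1)` at the points
`|a j n + b j|`. -/
noncomputable def diff {k : ℕ} (a : Fin k → ℕ) (b : Fin k → ℤ) (f : Fin k → ℕ → ℂ)
    (h : Fin k → ℕ → ℕ) (φ : Fin k → ℕ → ℂ) (y : ℕ) : ℂ :=
  ∑ n ∈ Icc 1 y,
    ((∏ j, f j ((a j : ℤ) * n + b j).natAbs * φ j (h j ((a j : ℤ) * n + b j).natAbs)) -
      ∏ j, f j ((a j : ℤ) * n + b j).natAbs * φ j (h j ((a j : ℤ) * n + b j).natAbs + 1))

open Classical in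
/-- The exceptional scales: the `1 ≤ i ≤ J` such that `|diff y| > ε y` for some `y` in
`[N / 2 ^ (i + 1), N / 2 ^ i]`. -/
noncomputable def exceptional {k : ℕ} (a : Fin k → ℕ) (b : Fin k → ℤ) (f : Fin k → ℕ → ℂ)
    (h : Fin k → ℕ → ℕ) (φ : Fin k → ℕ → ℂ) (ε : ℝ) (J N : ℕ) : Finset ℕ :=
  (Icc 1 J).filter (fun i => ∃ y : ℕ, N / 2 ^ (i + 1) ≤ y ∧ y ≤ N / 2 ^ i ∧
    ε * y < ‖diff a b f h φ y‖)

/-- Let `a j ≥ 1`, `b j` be integers and `ε > 0`. There is `C` such that for every `J`, all large `N`,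
all functions `h j` with `h j (p m) = h j m + 1` for all primes `p` and all `m` not divisible by `p`
(for example `Ω`), all bounded functions `φ j` and all bounded multiplicative functions `f j` whose
product is `1` at the primes: the exceptional scales `i ≤ J` satisfy `∑ 1 / i ≤ C`. -/
theorem result : ∀ (k : ℕ) (a : Fin k → ℕ) (b : Fin k → ℤ), 0 < k → (∀ j, 1 ≤ a j) →
    ∀ ε : ℝ, 0 < ε → ∃ C : ℝ, ∀ J : ℕ, ∃ N₀ : ℕ, ∀ N : ℕ, N₀ ≤ N →
      ∀ (f : Fin k → ℕ → ℂ) (h : Fin k → ℕ → ℕ) (φ : Fin k → ℕ → ℂ),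
        (∀ j n, ‖f j n‖ ≤ 1) → (∀ j (m n : ℕ), m.Coprime n → f j (m * n) = f j m * f j n) →
        (∀ p : ℕ, p.Prime → ∏ j, f j p = 1) →
        (∀ j (p m : ℕ), p.Prime → ¬ p ∣ m → h j (p * m) = h j m + 1) →
        (∀ j l, ‖φ j l‖ ≤ 1) →
        ∑ i ∈ exceptional a b f h φ ε J N, 1 / (i : ℝ) ≤ C := by
  intro k a b hk ha ε hε
  obtain ⟨C, hC⟩ := Pool.Agent.N781.E.om_exc k a b hk ha ε hε
  refine ⟨C, fun J => ?_⟩
  obtain ⟨N₀, hN₀⟩ := hC J
  refine ⟨N₀, fun N hN f h φ hf hm hone hh hφ => ?_⟩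
  have h1 := hN₀ N hN f h φ hf hm hone hh hφ
  have h2 : ∀ y : ℕ, Pool.Agent.N781.E.SS a b (Pool.Agent.N781.OM.FO f h φ 0) y -
      Pool.Agent.N781.E.SS a b (Pool.Agent.N781.OM.FO f h φ 1) y = diff a b f h φ y := by
    intro y
    unfold Pool.Agent.N781.E.SS diff
    rw [← Finset.sum_sub_distrib]
    rfl
  simp only [h2] at h1
  exact h1

end Pool.Agent.Results.MP_e0aac0_nt.DiagonalShiftFixedShifts
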