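import Mathlib
import Pool.Agent.N781.OM.Fin

/-!
The joint law of the values of `Ω` at `a i n + b i d` depends for almost all `d ≤ D` only on the
greatest common divisor of `d` and a fixed number and on the position of `d` in `[1, D]`, at every
scale.
-/

open Pool.Agent.N675 Pool.Agent.N781.A Pool.Agent.N781.OM in
/-- Let `a i n + b i d`, `i < k`, be forms with `a i ≠ 0`. For all `R` and all `ε > 0` there are
`Q ≥ 1` and `K` such that for all `D ≥ K`, all `x` with `D ≤ R x`, all functions `h i` with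
`h i (p m) = h i m + 1` for all primes `p` and all `m` not divisible by `p` (for example `Ω`), all
bounded functions `φ i` and all bounded multiplicative functions `f i` whose product is `1` at the
primes there is a function `s` such that the sum over `n ≤ x` of `∏ i, f i φ i (h i)` at the points
`|a i n + b i d|` differs from `x s(u, g)`, where `g = gcd(d, Q)` and `u = ⌊(d - 1) Q / D⌋`, by at
most `ε D x` in sum over `d ≤ D`. -/
theorem Pool.Agent.Results.MP_e0aac0_nt.GcdDependence.result :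
    ∀ (k R : ℕ) (a b : Fin k → ℤ), 0 < k → (∀ i, a i ≠ 0) → ∀ ε : ℝ, 0 < ε →
      ∃ Q K : ℕ, 0 < Q ∧ ∀ D x : ℕ, K ≤ D → D ≤ R * x →
      ∀ (f : Fin k → ℕ → ℂ) (h : Fin k → ℕ → ℕ) (φ : Fin k → ℕ → ℂ),
        (∀ i n, ‖f i n‖ ≤ 1) → (∀ i (m n : ℕ), m.Coprime n → f i (m * n) = f i m * f i n) →
        (∀ p : ℕ, p.Prime → ∏ i, f i p = 1) →
        (∀ i (p m : ℕ), p.Prime → ¬ p ∣ m → h i (p * m) = h i m + 1) →
        (∀ i l, ‖φ i l‖ ≤ 1) →
        ∃ s : ℤ → ℕ → ℂ, ∑ d ∈ Finset.Icc (1 : ℤ) D,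
          ‖∑ n ∈ Finset.Icc (1 : ℤ) x,
            (∏ i, f i (a i * n + b i * d).natAbs * φ i (h i (a i * n + b i * d).natAbs)) -
            x * s ((d - 1) * Q / D) (Int.gcd d Q)‖ ≤ ε * (D * x) := by
  intro k R a b hk ha ε hε
  obtain ⟨Q, K, hQ, hK⟩ := gcd_final R k a b hk ha ε hε
  refine ⟨Q, K + 1, hQ, fun D x hD hDx f h φ hf hm hone hh hφ => ?_⟩
  have hx1 : 0 < x := by
    rcases Nat.eq_zero_or_pos x with h0 | h0
    · rw [h0, Nat.mul_zero] at hDx
      omega
    · exact h0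
  have hx0 : (0 : ℝ) < x := by exact_mod_cast hx1
  have hx0' : (x : ℂ) ≠ 0 := by exact_mod_cast hx1.ne'
  obtain ⟨s, h1⟩ := hK D x (by omega) hDx (FO f h φ 0) (FO f h φ 1) f
    (fun T => FO_MG f h φ hf hm hh hφ 0 T) hone
  refine ⟨s, ?_⟩
  have h2 : ∀ d : ℤ, ‖∑ n ∈ Finset.Icc (1 : ℤ) x,
            (∏ i, f i (a i * n + b i * d).natAbs * φ i (h i (a i * n + b i * d).natAbs)) -
            x * s ((d - 1) * Q / D) (Int.gcd d Q)‖
      = x * ‖cc a b (FO f h φ 0) x d - s ((d - 1) * Q / D) (Int.gcd d Q)‖ := by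
    intro d
    have e : (∑ n ∈ Finset.Icc (1 : ℤ) x,
            (∏ i, f i (a i * n + b i * d).natAbs * φ i (h i (a i * n + b i * d).natAbs)))
        = x * cc a b (FO f h φ 0) x d := by
      unfold cc av
      rw [mul_div_cancel₀ _ hx0']
      rfl
    rw [e, ← mul_sub, norm_mul, Complex.norm_natCast]
  calc _ = ∑ d ∈ Finset.Icc (1 : ℤ) D,
        x * ‖cc a b (FO f h φ 0) x d - s ((d - 1) * Q / D) (Int.gcd d Q)‖ :=
        Finset.sum_congr rfl fun d _ => h2 d
    _ = x * ∑ d ∈ Finset.Icc (1 : ℤ) D,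
        ‖cc a b (FO f h φ 0) x d - s ((d - 1) * Q / D) (Int.gcd d Q)‖ := by
        rw [Finset.mul_sum]
    _ ≤ x * (ε * D) := mul_le_mul_of_nonneg_left h1 hx0.le
    _ = _ := by ring
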