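import Pool.Agent.N193.PS.Om
import Pool.Agent.N193.PS.Gp

/-!
# Independence of the values of `Ω` for all shifts near almost all values of functions of a non-integral order

From Mathlib: `ArithmeticFunction.cardFactors`: `Ω`; `ContDiffAt ℝ ⊤`: infinitely differentiable at a point;
`iteratedDeriv m f`: the derivative of order `m`; `⌊y⌋₊`: the integer part of `y`, and `0` for `y < 0`.

The theorems for families of shifts of minimal additive energy are the starting files `AlmostAllShifts` and `LocalLaw` of this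
page; new are the energy estimate for the values (from exponential sums, `Pool.Agent.N193.PS`) and the neighbours.
-/

set_option autoImplicit false

namespace Pool.Agent.Results.MP_e0aac0_nt.NonIntegralOrderShifts

open Finset Filter
open ArithmeticFunction (cardFactors)

/-- `f` is smoothly varying of index `c`: it is infinitely differentiable and positive for large arguments, and
`t ^ m f⁽ᵐ⁾(t) / f(t) → c (c - 1) ... (c - m + 1)` for every `m`. -/
def SmoothlyVarying (c : ℝ) (f : ℝ → ℝ) : Prop :=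
  (∃ t₀ : ℝ, ∀ t > t₀, ContDiffAt ℝ ((⊤ : ℕ∞) : WithTop ℕ∞) f t ∧ 0 < f t) ∧
  ∀ m : ℕ, Tendsto (fun t => t ^ m * iteratedDeriv m f t / f t) atTop (nhds (∏ i ∈ range m, (c - i)))

/-- The mean over all `(r_1, ..., r_k)` in `[N]^k` of `g (Ω(r_1), ..., Ω(r_k))`. -/
noncomputable def mean (N k : ℕ) (g : (Fin k → ℕ) → ℂ) : ℂ :=
  (∑ r ∈ Fintype.piFinset (fun _ : Fin k => Icc 1 N), g (fun i => cardFactors (r i))) / (N : ℂ) ^ k

/-- The rate `log log log N / √(log log N)`. -/
noncomputable def rate (N : ℕ) : ℝ := Real.log (Real.log (Real.log N)) / √(Real.log (Real.log N))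

/-- The density `π_l(N)` of the `n ≤ N` with `Ω(n) = l`. -/
noncomputable def dens (N l : ℕ) : ℝ := (1 / (N : ℝ)) * (((Icc 1 N).filter (fun n => cardFactors n = l)).card : ℝ)

/-- `log log N`. -/
noncomputable def ll (N : ℕ) : ℝ := Real.log (Real.log N)

open Pool.Agent.N193.PS

open Classical in
/-- **(1)** Let `g 1, ..., g k` be smoothly varying of indices `b i > 0` which are not integers, and let `κ i ≥ 1`, `j`, `B` and `A`
be fixed. There are `θ > 0` and `C` such that for all large `N`, every label `f n` with at most `log ^ θ N` as its largest value,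
all `t 1, ..., t j ≤ B N`, all `x i` with `g i n ≤ N` for `1 ≤ n ≤ x i` and `N ≤ B g i (x i)`, and all `c i ≤ B N`, all the
vectors `(m 1, ..., m k)` with `1 ≤ m i ≤ x i`, up to a proportion of at most `log ^ (-θ) N`, have the following property. For
ALL integers `h i` between `c i + κ i ⌊g i (m i)⌋` and `c i + κ i ⌊g i (m i)⌋ + log ^ θ N`:

* the values `Ω(n + h 1), ..., Ω(n + h k)` are jointly independent, independent of the side information (the label and
  the values of `Ω` at `n + t 1, ..., n + t j`), and distributed as the values of `Ω` on `[N]`, up to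
  `C log log log N / √(log log N)` in total variation;
* for every weight `w` in `[0, 1]` and all prescribed values `G i`, both depending on the side information, the weighted
  number of the `n ≤ N` with `Ω(n + h i) = G i` for all `i` is the weighted sum of `∏ π_{G i}(N)`, with an error
  `C log log log N / (log log N) ^ ((k + 1) / 2)` times the sum of the weights plus `C N / (log log N) ^ A`.

**(2)** Part (1) applies to all the functions `t ↦ ∑ a z t ^ z.1 (log t) ^ z.2` (finite sums) with a leading term `z₀`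
whose coefficient is positive and whose exponent `z₀.1` is positive and not an integer. -/
theorem result :
    (∀ (k : ℕ) (b : Fin k → ℝ) (g : Fin k → ℝ → ℝ), (∀ i, 0 < b i) → (∀ i, ∀ m : ℕ, b i ≠ m) →
      (∀ i, SmoothlyVarying (b i) (g i)) → ∀ κ : Fin k → ℕ, (∀ i, 1 ≤ κ i) → ∀ j B A : ℕ,
      ∃ θ : ℝ, 0 < θ ∧ ∃ C : ℝ, 0 < C ∧ ∃ N₀ : ℕ, ∀ N : ℕ, N₀ ≤ N →
      ∀ f : ℕ → ℕ, (∀ n, (f n : ℝ) ≤ Real.log N ^ θ) → ∀ t : Fin j → ℕ, (∀ i, t i ≤ B * N) →
      ∀ x : Fin k → ℕ, (∀ i, ∀ n ∈ Icc 1 (x i), g i n ≤ N) → (∀ i, (N : ℝ) ≤ B * g i (x i)) →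
      ∀ c : Fin k → ℕ, (∀ i, c i ≤ B * N) →
      ∃ E ⊆ Fintype.piFinset (fun i => Icc 1 (x i)), (E.card : ℝ) ≤ (∏ i, (x i : ℝ)) * Real.log N ^ (-θ) ∧
        ∀ m ∈ Fintype.piFinset (fun i => Icc 1 (x i)), m ∉ E →
        ∀ h : Fin k → ℕ, (∀ i, c i + κ i * ⌊g i (m i)⌋₊ ≤ h i ∧ (h i : ℝ) ≤ c i + κ i * (⌊g i (m i)⌋₊ : ℕ) + Real.log N ^ θ) →
        (∀ a : ℕ → (Fin j → ℕ) → (Fin k → ℕ) → ℂ, (∀ c u l, ‖a c u l‖ ≤ 1) →
          ‖(1 / (N : ℂ)) * ∑ n ∈ Icc 1 N, a (f n) (fun i => cardFactors (n + t i)) (fun i => cardFactors (n + h i)) -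
            (1 / (N : ℂ)) * ∑ n ∈ Icc 1 N, mean N k (a (f n) (fun i => cardFactors (n + t i)))‖ ≤ C * rate N) ∧
        (∀ w : ℕ → (Fin j → ℕ) → ℝ, (∀ c u, 0 ≤ w c u ∧ w c u ≤ 1) → ∀ G : ℕ → (Fin j → ℕ) → Fin k → ℕ,
          |(1 / (N : ℝ)) * ∑ n ∈ Icc 1 N, w (f n) (fun i => cardFactors (n + t i)) *
              ((if ∀ i, cardFactors (n + h i) = G (f n) (fun i => cardFactors (n + t i)) i then (1 : ℝ) else 0) -
                ∏ i, dens N (G (f n) (fun i => cardFactors (n + t i)) i))| ≤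
            C * (Real.log (ll N) / √(ll N) ^ (k + 1)) *
              ((1 / (N : ℝ)) * ∑ n ∈ Icc 1 N, w (f n) (fun i => cardFactors (n + t i))) + C / ll N ^ A)) ∧
    (∀ (F : Finset (ℝ × ℝ)) (a : ℝ × ℝ → ℝ) (z₀ : ℝ × ℝ), z₀ ∈ F → 0 < a z₀ →
      (∀ z ∈ F, z ≠ z₀ → z.1 < z₀.1 ∨ z.1 = z₀.1 ∧ z.2 < z₀.2) →
      SmoothlyVarying z₀.1 (fun t => ∑ z ∈ F, a z * t ^ z.1 * Real.log t ^ z.2)) := by
  refine ⟨fun k b g hb hnb hg κ hκ j B A => ?_, fun F a z₀ h1 h2 h3 => gp_sv F a z₀ h1 h2 h3⟩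
  exact sv_omega k b g hb hnb hg κ hκ j B A

end Pool.Agent.Results.MP_e0aac0_nt.NonIntegralOrderShifts
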