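import Mathlib
import Pool.Agent.N781.OM.Fin
import Pool.Agent.N781.P.Fix

/-!
The joint law of the values of `Ω` along almost all PRIME dilates, and along the dilates for which
several linear polynomials are prime, is invariant under the diagonal shift, at every scale.
-/

open Pool.Agent.N675 Pool.Agent.N781.A Pool.Agent.N781.OM Pool.Agent.N781.P in
/-- Let `a i n + b i d`, `i < k`, be forms with `a i ≠ 0`, and let `α j d + β j`, `j < t`, be linear
polynomials with `α j ≠ 0`, no two of them proportional. For all `R` and all `ε > 0` there is `K`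
such that for all `D ≥ K`, all `x` with `D ≤ R x`, all functions `h i` with
`h i (p m) = h i m + 1` for all primes `p` and all `m` not divisible by `p` (for example `Ω`), all
bounded functions `φ i` and all bounded multiplicative functions `f i` whose product is `1` at the
primes: the sum over `d ≤ D` of `∏ j, Λ(|α j d + β j|)` times the ABSOLUTE VALUE of the sum over
`n ≤ x` of `∏ i, f i φ i (h i) - ∏ i, f i φ i (h i + 1)` at the points `|a i n + b i d|` is at most
`ε D x`. -/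
theorem Pool.Agent.Results.MP_e0aac0_nt.PrimeDilatesShift.result :
    ∀ (k t R : ℕ) (a b : Fin k → ℤ) (α β : Fin t → ℤ), 0 < k → (∀ i, a i ≠ 0) →
      (∀ j, α j ≠ 0) → (∀ j j', j ≠ j' → α j * β j' ≠ α j' * β j) → ∀ ε : ℝ, 0 < ε →
      ∃ K : ℕ, ∀ D x : ℕ, K ≤ D → D ≤ R * x →
      ∀ (f : Fin k → ℕ → ℂ) (h : Fin k → ℕ → ℕ) (φ : Fin k → ℕ → ℂ),
        (∀ i n, ‖f i n‖ ≤ 1) → (∀ i (m n : ℕ), m.Coprime n → f i (m * n) = f i m * f i n) →
        (∀ p : ℕ, p.Prime → ∏ i, f i p = 1) →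
        (∀ i (p m : ℕ), p.Prime → ¬ p ∣ m → h i (p * m) = h i m + 1) →
        (∀ i l, ‖φ i l‖ ≤ 1) →
        ∑ d ∈ Finset.Icc (1 : ℤ) D,
          (∏ j, ArithmeticFunction.vonMangoldt (α j * d + β j).natAbs) *
          ‖∑ n ∈ Finset.Icc (1 : ℤ) x,
          ((∏ i, f i (a i * n + b i * d).natAbs * φ i (h i (a i * n + b i * d).natAbs)) -
            ∏ i, f i (a i * n + b i * d).natAbs * φ i (h i (a i * n + b i * d).natAbs + 1))‖
          ≤ ε * (D * x) := by
  intro k t R a b α β hk ha hα hαβ ε hε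
  obtain ⟨ε', K1, hε', hK1⟩ := tr_fix k t R a b α β hk ha hα hαβ ε hε
  obtain ⟨K2, hK2⟩ := shift_ms R k a b hk ha ε' hε'
  refine ⟨K1 + K2 + 1, fun D x hD hDx f h φ hf hm hone hh hφ => ?_⟩
  have hx1 : 0 < x := by
    rcases Nat.eq_zero_or_pos x with h0 | h0
    · rw [h0, Nat.mul_zero] at hDx
      omega
    · exact h0
  have hx0 : (0 : ℝ) < x := by exact_mod_cast hx1
  have hx0' : (x : ℂ) ≠ 0 := by exact_mod_cast hx1.ne'
  have h0 := hK2 D x (by omega) hDx (FO f h φ 0) (FO f h φ 1) (FO f h φ 2) f f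
    (fun T => FO_MG f h φ hf hm hh hφ 0 T) (fun T => FO_MG f h φ hf hm hh hφ 1 T) hone hone
  have h1 := hK1 D x (by omega) hDx (FO f h φ 1) (FO f h φ 0) (FO_norm f h φ hf hφ 1)
    (FO_norm f h φ hf hφ 0) h0
  have h2 : ∀ d : ℤ, ‖∑ n ∈ Finset.Icc (1 : ℤ) x,
          ((∏ i, f i (a i * n + b i * d).natAbs * φ i (h i (a i * n + b i * d).natAbs)) -
            ∏ i, f i (a i * n + b i * d).natAbs * φ i (h i (a i * n + b i * d).natAbs + 1))‖
      = x * ‖cc a b (FO f h φ 1) x d - cc a b (FO f h φ 0) x d‖ := by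
    intro d
    unfold cc av
    rw [← sub_div, norm_div, Complex.norm_natCast, mul_div_cancel₀ _ hx0.ne', norm_sub_rev,
      ← Finset.sum_sub_distrib]
    rfl
  calc _ = ∑ d ∈ Finset.Icc (1 : ℤ) D, x *
        ((∏ j, ArithmeticFunction.vonMangoldt (α j * d + β j).natAbs) *
          ‖cc a b (FO f h φ 1) x d - cc a b (FO f h φ 0) x d‖) :=
        Finset.sum_congr rfl fun d _ => by rw [h2]; ring
    _ = x * ∑ d ∈ Finset.Icc (1 : ℤ) D,
        (∏ j, ArithmeticFunction.vonMangoldt (α j * d + β j).natAbs) *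
          ‖cc a b (FO f h φ 1) x d - cc a b (FO f h φ 0) x d‖ := by
        rw [Finset.mul_sum]
    _ ≤ x * (ε * D) := mul_le_mul_of_nonneg_left h1 hx0.le
    _ = _ := by ring
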